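import Pool.Agent.W2helper9.SD.Stm

/-!
# Project SD (MP_d071c2_nt), piece DN: density of coprime pairs of binary forms over `ℤ[1/2]`
-/

set_option autoImplicit false

open MvPolynomial IsDedekindDomain NumberField

namespace Pool.Agent.W2helper85.SD

open Pool.Agent.W2helper9.SD Pool.Agent.Helper819.Dyn

noncomputable section

section Forms

variable {A B : Type} [CommRing A] [CommRing B] {m : ℕ}

/-- product of linear factors -/
def lf (α : Fin m → A) : Polynomial A := ∏ j, (Polynomial.X - Polynomial.C (α j))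

/-- the product of the other linear factors -/
def lo (α : Fin m → A) (i : Fin m) : Polynomial A :=
  ∏ j ∈ Finset.univ.erase i, (Polynomial.X - Polynomial.C (α j))

/-- combination of the products of all but one linear factors -/
def gf (α c : Fin m → A) : Polynomial A := ∑ i, Polynomial.C (c i) * lo α i

theorem lf_map (f : A →+* B) (α : Fin m → A) : (lf α).map f = lf fun j => f (α j) := by
  simp [lf, Polynomial.map_prod]

theorem lo_map (f : A →+* B) (α : Fin m → A) (i : Fin m) :
    (lo α i).map f = lo (fun j => f (α j)) i := by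
  simp [lo, Polynomial.map_prod]

theorem gf_map (f : A →+* B) (α c : Fin m → A) :
    (gf α c).map f = gf (fun j => f (α j)) fun j => f (c j) := by
  simp only [gf, Polynomial.map_sum, Polynomial.map_mul, Polynomial.map_C, lo_map]

theorem lf_monic (α : Fin m → A) : (lf α).Monic :=
  Polynomial.monic_prod_of_monic _ _ fun _ _ => Polynomial.monic_X_sub_C _

theorem lf_natDegree [Nontrivial A] (α : Fin m → A) : (lf α).natDegree = m := by
  rw [lf, Polynomial.natDegree_prod_of_monic _ _ fun _ _ => Polynomial.monic_X_sub_C _]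
  simp

theorem lo_degree [Nontrivial A] (α : Fin m → A) (i : Fin m) : (lo α i).degree < m := by
  have h1 : (lo α i).Monic := Polynomial.monic_prod_of_monic _ _ fun _ _ =>
    Polynomial.monic_X_sub_C _
  have h2 : (lo α i).natDegree = m - 1 := by
    rw [lo, Polynomial.natDegree_prod_of_monic _ _ fun _ _ => Polynomial.monic_X_sub_C _]
    simp
  have h3 : 0 < m := i.pos
  rw [Polynomial.degree_eq_natDegree h1.ne_zero, h2]
  exact_mod_cast (by omega : m - 1 < m)

theorem gf_degree [Nontrivial A] (α c : Fin m → A) : (gf α c).degree < m := by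
  rw [← Polynomial.mem_degreeLT]
  refine Submodule.sum_mem _ fun i _ => ?_
  rw [← Polynomial.smul_eq_C_mul]
  refine Submodule.smul_mem _ _ ?_
  rw [Polynomial.mem_degreeLT]
  exact lo_degree α i

theorem lf_eval (α : Fin m → A) (x : A) : (lf α).eval x = ∏ j, (x - α j) := by
  simp [lf, Polynomial.eval_prod]

theorem lo_eval (α : Fin m → A) (i : Fin m) (x : A) :
    (lo α i).eval x = ∏ j ∈ Finset.univ.erase i, (x - α j) := by
  simp [lo, Polynomial.eval_prod]

theorem gf_eval (α c : Fin m → A) (l : Fin m) :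
    (gf α c).eval (α l) = c l * ∏ j ∈ Finset.univ.erase l, (α l - α j) := by
  rw [gf, Polynomial.eval_finsetSum, Finset.sum_eq_single l]
  · rw [Polynomial.eval_mul, Polynomial.eval_C, lo_eval]
  · intro i _ hi
    rw [Polynomial.eval_mul, lo_eval, Finset.prod_eq_zero (i := l), mul_zero]
    · exact Finset.mem_erase.2 ⟨fun h => hi h.symm, Finset.mem_univ _⟩
    · exact sub_self _
  · intro h
    exact absurd (Finset.mem_univ _) h

theorem nd_lt {P : Polynomial A} {k : ℕ} (hk : 0 < k) (h : P.degree < k) : P.natDegree < k := by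
  rcases eq_or_ne P 0 with h0 | h0
  · rw [h0, Polynomial.natDegree_zero]
    exact hk
  · exact (Polynomial.natDegree_lt_iff_degree_lt h0).2 h

/-- the vector of the coefficients -/
def vec (P Q : Polynomial A) : Fin m ⊕ Fin m → A :=
  Sum.elim (fun i => P.coeff i) fun i => Q.coeff i

theorem vec_map (f : A →+* B) (P Q : Polynomial A) (i : Fin m ⊕ Fin m) :
    f (vec P Q i) = vec (P.map f) (Q.map f) i := by
  rcases i with i | i <;> simp [vec]

/-- the integer which has to divide `ε - 1` -/
def dd (α : Fin m → A) (i : Fin m) : A := α i * ∏ j ∈ Finset.univ.erase i, (α i - α j)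

end Forms

/-- No common zero. -/
theorem cop_vec {m : ℕ} (hm : 1 ≤ m) (α c : Fin m → Z2) (k : Fin m → ℕ)
    (h : ∀ i, 1 + dd α i * c i = 2 ^ k i) : Cop (m + 1) (vec (m := m) (lf α) (gf α c)) := by
  intro κ _ _ φ s t h1 h2
  have h1' : t ^ (m + 1) + ∑ i : Fin m, φ ((lf α).coeff i) * t ^ (i.1 + 1) * s ^ (m - i.1) = 0 := h1
  have h2' : s ^ (m + 1) + ∑ i : Fin m, φ ((gf α c).coeff i) * t ^ (i.1 + 1) * s ^ (m - i.1) = 0 := h2
  have h20 : φ 2 ≠ 0 := by
    have hu : IsUnit (2 : Z2) := by
      have := IsLocalization.Away.algebraMap_isUnit (S := Z2) (2 : ℤ)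
      simpa using this
    exact (hu.map φ).ne_zero
  by_cases hs : s = 0
  · refine ⟨hs, ?_⟩
    subst hs
    rw [Finset.sum_eq_zero, add_zero] at h1'
    · exact pow_eq_zero_iff (by omega) |>.1 h1'
    · intro i _
      rw [zero_pow (by have := i.2; omega), mul_zero]
  · exfalso
    obtain ⟨x, rfl⟩ : ∃ x, t = x * s := ⟨t / s, by field_simp⟩
    have hsm : s ^ (m + 1) ≠ 0 := pow_ne_zero _ hs
    have key : ∀ P : Polynomial Z2, ∑ i : Fin m, φ (P.coeff i) * (x * s) ^ (i.1 + 1) * s ^ (m - i.1) =
        s ^ (m + 1) * (x * ∑ i ∈ Finset.range m, (P.map φ).coeff i * x ^ i) := by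
      intro P
      rw [← Fin.sum_univ_eq_sum_range (fun i => (P.map φ).coeff i * x ^ i) m, Finset.mul_sum,
        Finset.mul_sum]
      refine Finset.sum_congr rfl fun i _ => ?_
      have e1 : s ^ (m + 1) = s ^ (i.1 + 1) * s ^ (m - i.1) := by
        rw [← pow_add]
        congr 1
        have := i.2
        omega
      rw [e1, Polynomial.coeff_map, mul_pow]
      ring
    rw [key] at h1' h2'
    have e1 : x * (lf fun j => φ (α j)).eval x = 0 := by
      have e2 : (lf fun j => φ (α j)).eval x = x ^ m + ∑ i ∈ Finset.range m,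
          ((lf α).map φ).coeff i * x ^ i := by
        rw [lf_map, Polynomial.eval_eq_sum_range, lf_natDegree, Finset.sum_range_succ, add_comm]
        congr 1
        have := (lf_monic fun j => φ (α j)).coeff_natDegree
        rw [lf_natDegree] at this
        rw [this, one_mul]
      rw [e2]
      have e3 : s ^ (m + 1) * (x * (x ^ m + ∑ i ∈ Finset.range m,
          ((lf α).map φ).coeff i * x ^ i)) = 0 := by
        rw [← h1']
        ring
      exact (mul_eq_zero.1 e3).resolve_left hsm
    have e2 : 1 + x * (gf (fun j => φ (α j)) fun j => φ (c j)).eval x = 0 := by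
      have e3 : (gf (fun j => φ (α j)) fun j => φ (c j)).eval x = ∑ i ∈ Finset.range m,
          ((gf α c).map φ).coeff i * x ^ i := by
        rw [gf_map]
        exact Polynomial.eval_eq_sum_range' (by
          have h3 := gf_degree (fun j => φ (α j)) fun j => φ (c j)
          exact nd_lt (by omega) h3) x
      rw [e3]
      have e4 : s ^ (m + 1) * (1 + x * ∑ i ∈ Finset.range m,
          ((gf α c).map φ).coeff i * x ^ i) = 0 := by
        rw [← h2']
        ring
      exact (mul_eq_zero.1 e4).resolve_left hsm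
    rcases mul_eq_zero.1 e1 with h3 | h3
    · rw [h3, zero_mul, add_zero] at e2
      exact one_ne_zero e2
    · rw [lf_eval, Finset.prod_eq_zero_iff] at h3
      obtain ⟨l, -, hl⟩ := h3
      rw [sub_eq_zero] at hl
      subst hl
      rw [gf_eval (fun j => φ (α j)) (fun j => φ (c j)) l] at e2
      have h4 := congrArg φ (h l)
      rw [map_add, map_one, map_mul, dd, map_mul, map_prod, map_pow] at h4
      simp only [map_sub] at h4
      have h5 : φ 2 ^ k l = 0 := by
        rw [← h4, ← e2]
        ring
      exact pow_ne_zero _ h20 h5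

/-- `1 + D c` is a power of `2` -/
theorem exists_c (D : ℤ) (hD : D ≠ 0) : ∃ N : ℕ, 0 < N ∧ ∀ k : ℕ, ∃ c : Z2,
    1 + (D : Z2) * c = 2 ^ (N * k) := by
  have hu : IsUnit (2 : Z2) := by
    have := IsLocalization.Away.algebraMap_isUnit (S := Z2) (2 : ℤ)
    simpa using this
  obtain ⟨u, hu⟩ := hu.exists_right_inv
  obtain ⟨e, d, hd, hDe⟩ := Nat.exists_eq_two_pow_mul_odd (Int.natAbs_ne_zero.2 hD)
  have hd0 : 0 < d := hd.pos
  refine ⟨d.totient, Nat.totient_pos.2 hd0, fun k => ?_⟩
  have h1 : 2 ^ (d.totient * k) ≡ 1 [MOD d] := by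
    have h2 : 2 ^ d.totient ≡ 1 [MOD d] :=
      Nat.ModEq.pow_totient (Nat.coprime_two_left.2 hd)
    have h3 := h2.pow k
    rwa [one_pow, ← pow_mul] at h3
  have h2 : (d : ℤ) ∣ 2 ^ (d.totient * k) - 1 := by
    have := (Nat.modEq_iff_dvd.1 h1.symm)
    exact_mod_cast this
  obtain ⟨z, hz⟩ := h2
  have hz' : (2 : Z2) ^ (d.totient * k) = 1 + (d : Z2) * (z : Z2) := by
    have := congrArg (fun y : ℤ => (y : Z2)) hz
    push_cast at this
    rw [← this]
    ring
  have hue : (2 : Z2) ^ e * u ^ e = 1 := by
    rw [← mul_pow, hu, one_pow]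
  rcases Int.natAbs_eq D with h3 | h3
  · refine ⟨z * u ^ e, ?_⟩
    rw [h3, hDe, hz']
    push_cast
    linear_combination ((d : Z2) * z) * hue
  · refine ⟨-(z * u ^ e), ?_⟩
    rw [h3, hDe, hz']
    push_cast
    linear_combination ((d : Z2) * z) * hue

/-- the good values of the parameters -/
def ST (D : ℤ) : Set Kb := {x | ∃ (c : Z2) (k : ℕ), io c = x ∧ 1 + (D : Z2) * c = 2 ^ k}

theorem ST_infinite {D : ℤ} (hD : D ≠ 0) : (ST D).Infinite := by
  obtain ⟨N, hN, h⟩ := exists_c D hD
  choose c hc using h
  refine Set.infinite_of_injective_forall_mem (f := fun k => io (c k)) ?_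
    (fun k => ⟨c k, N * k, rfl, hc k⟩)
  intro k l hkl
  have hkl' : io (c k) = io (c l) := hkl
  have h1 := congrArg io (hc k)
  have h2 := congrArg io (hc l)
  rw [map_add, map_mul, hkl', ← map_mul, ← map_add, hc l] at h1
  rw [map_pow, map_pow, map_ofNat] at h1
  have h3 : ((2 ^ (N * l) : ℕ) : Kb) = ((2 ^ (N * k) : ℕ) : Kb) := by
    push_cast
    exact h1
  have h4 := Nat.pow_right_injective (le_refl 2) (Nat.cast_injective h3)
  exact (Nat.eq_of_mul_eq_mul_left hN h4).symm

/-- every monic polynomial over `ℚ̄` is a product of linear factors -/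
theorem exists_lf {m : ℕ} (a : Fin m → Kb) : ∃ α : Fin m → Kb, ∀ i : Fin m, (lf α).coeff i = a i := by
  set q : Polynomial Kb := ∑ i : Fin m, Polynomial.C (a i) * Polynomial.X ^ (i : ℕ) with hq
  have hqd : q.degree < m := by
    rw [← Polynomial.mem_degreeLT]
    refine Submodule.sum_mem _ fun i _ => ?_
    rw [Polynomial.mem_degreeLT]
    refine (Polynomial.degree_C_mul_X_pow_le _ _).trans_lt ?_
    exact_mod_cast i.2
  set P : Polynomial Kb := Polynomial.X ^ m + q with hP
  have hPm : P.Monic := Polynomial.monic_X_pow_add hqd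
  have hPd : P.natDegree = m := by
    rw [hP, Polynomial.natDegree_add_eq_left_of_degree_lt, Polynomial.natDegree_X_pow]
    rw [Polynomial.degree_X_pow]
    exact hqd
  have hsp := IsAlgClosed.splits P
  have h1 := hsp.eq_prod_roots_of_monic hPm
  have h2 : P.roots.card = m := by rw [← hPd]; exact hsp.natDegree_eq_card_roots.symm
  obtain ⟨l, hl⟩ := Quot.exists_rep P.roots
  have hl' : (l : Multiset Kb) = P.roots := hl
  have hlen : l.length = m := by rw [← h2, ← hl', Multiset.coe_card]
  subst hlen
  refine ⟨fun i => l.get i, fun i => ?_⟩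
  have h3 : lf (fun i => l.get i) = P := by
    rw [h1, ← hl', Multiset.map_coe, Multiset.prod_coe, lf]
    rw [← List.prod_ofFn]
    congr 1
    apply List.ext_getElem
    · simp
    · intro i _ _
      simp
  rw [h3, hP, Polynomial.coeff_add, Polynomial.coeff_X_pow, if_neg (by have := i.2; omega), zero_add,
    hq, Polynomial.finsetSum_coeff, Finset.sum_eq_single i]
  · simp
  · intro j _ hj
    rw [Polynomial.coeff_C_mul, Polynomial.coeff_X_pow, if_neg, mul_zero]
    intro h
    exact hj (Fin.ext h.symm)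
  · intro h
    exact absurd (Finset.mem_univ _) h

/-- interpolation -/
theorem exists_gf {m : ℕ} {α : Fin m → Kb} (hα : Function.Injective α) (b : Fin m → Kb) :
    ∃ c : Fin m → Kb, ∀ i : Fin m, (gf α c).coeff i = b i := by
  set q : Polynomial Kb := ∑ i : Fin m, Polynomial.C (b i) * Polynomial.X ^ (i : ℕ) with hq
  have hqd : q.degree < m := by
    rw [← Polynomial.mem_degreeLT]
    refine Submodule.sum_mem _ fun i _ => ?_
    rw [Polynomial.mem_degreeLT]
    refine (Polynomial.degree_C_mul_X_pow_le _ _).trans_lt ?_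
    exact_mod_cast i.2
  have h0 : ∀ i, ∏ j ∈ Finset.univ.erase i, (α i - α j) ≠ 0 := by
    intro i
    rw [Finset.prod_ne_zero_iff]
    intro j hj h
    exact (Finset.mem_erase.1 hj).1 (hα (sub_eq_zero.1 h)).symm
  refine ⟨fun i => q.eval (α i) / ∏ j ∈ Finset.univ.erase i, (α i - α j), fun i => ?_⟩
  have h1 : gf α (fun i => q.eval (α i) / ∏ j ∈ Finset.univ.erase i, (α i - α j)) = q := by
    refine Polynomial.eq_of_degrees_lt_of_eval_index_eq (s := Finset.univ) (v := α)
      (fun i _ j _ h => hα h) ?_ ?_ (fun i _ => ?_)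
    · rw [Finset.card_univ, Fintype.card_fin]
      exact gf_degree _ _
    · rw [Finset.card_univ, Fintype.card_fin]
      exact hqd
    · rw [gf_eval]
      field_simp [h0 i]
  rw [h1, hq, Polynomial.finsetSum_coeff, Finset.sum_eq_single i]
  · simp
  · intro j _ hj
    rw [Polynomial.coeff_C_mul, Polynomial.coeff_X_pow, if_neg, mul_zero]
    intro h
    exact hj (Fin.ext h.symm)
  · intro h
    exact absurd (Finset.mem_univ _) h

theorem eval_sub {σ τ : Type} (v : σ → MvPolynomial τ Kb) (y : τ → Kb) (F : MvPolynomial σ Kb) :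
    eval y (aeval v F) = eval (fun i => eval y (v i)) F := by
  induction F using MvPolynomial.induction_on with
  | C a => simp
  | add p q hp hq => rw [map_add, map_add, map_add, hp, hq]
  | mul_X p i hp => rw [map_mul, map_mul, map_mul, hp, aeval_X, eval_X]

theorem p_DN : P_DN := by
  intro n hn
  obtain ⟨m, rfl⟩ : ∃ m, n = m + 1 := ⟨n - 1, by omega⟩
  have hm : 1 ≤ m := by omega
  show ∀ F : MvPolynomial (Fin m ⊕ Fin m) Kb,
    (∀ a ∈ {a : Fin m ⊕ Fin m → Z2 | Cop (m + 1) a}, eval (fun i => io (a i)) F = 0) → F = 0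
  intro F hF
  -- the values at the pairs with integral distinct nonzero roots
  have step1 : ∀ α : Fin m → ℤ, Function.Injective α → (∀ i, α i ≠ 0) → ∀ b : Fin m → Kb,
      eval (Sum.elim (fun i : Fin m => (lf fun j => (α j : Kb)).coeff i) b) F = 0 := by
    intro α hα hα0 b
    have hinj : Function.Injective fun j => (α j : Kb) := fun i j h => hα (Int.cast_injective h)
    obtain ⟨c, hc⟩ := exists_gf hinj b
    -- the polynomial in `c`
    set H : MvPolynomial (Fin m) Kb := aeval (vec (m := m)
      (lf fun j => (C (α j : Kb) : MvPolynomial (Fin m) Kb))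
      (gf (fun j => (C (α j : Kb) : MvPolynomial (Fin m) Kb)) X)) F with hH
    have hHe : ∀ c' : Fin m → Kb, eval c' H =
        eval (vec (m := m) (lf fun j => (α j : Kb)) (gf (fun j => (α j : Kb)) c')) F := by
      intro c'
      rw [hH, eval_sub]
      congr 1
      congr 1
      funext i
      rw [vec_map, lf_map, gf_map]
      simp
    have hD : ∀ i, dd α i ≠ 0 := by
      intro i
      refine mul_ne_zero (hα0 i) (Finset.prod_ne_zero_iff.2 fun j hj h => ?_)
      exact (Finset.mem_erase.1 hj).1 (hα (sub_eq_zero.1 h)).symm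
    have hH0 : H = 0 := by
      refine funext_set (fun i => ST (dd α i)) (fun i => ST_infinite (hD i)) fun x hx => ?_
      rw [map_zero, hHe]
      have hx' : ∀ i, x i ∈ ST (dd α i) := fun i => hx i (Set.mem_univ _)
      choose c'' k hk1 hk2 using hx'
      have h1 := hF (vec (m := m) (lf fun j => (α j : Z2)) (gf (fun j => (α j : Z2)) c''))
        (cop_vec hm _ _ k fun i => by
          rw [← hk2 i]
          simp [dd])
      rw [← h1]
      congr 1
      congr 1
      funext i
      rw [vec_map, lf_map, gf_map]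
      simp [hk1]
    have h2 := hHe c
    rw [hH0, map_zero] at h2
    rw [h2]
    congr 1
    congr 1
    funext i
    rcases i with i | i
    · rfl
    · exact (hc i).symm
  -- all values
  refine funext fun x => ?_
  rw [map_zero]
  obtain ⟨α, hα⟩ := exists_lf fun i => x (.inl i)
  set G : MvPolynomial (Fin m) Kb := aeval (Sum.elim
    (fun i : Fin m => (lf (X : Fin m → MvPolynomial (Fin m) Kb)).coeff i)
    fun i => C (x (.inr i))) F with hG
  have hGe : ∀ β : Fin m → Kb, eval β G =
      eval (Sum.elim (fun i : Fin m => (lf β).coeff i) fun i => x (.inr i)) F := by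
    intro β
    rw [hG, eval_sub]
    congr 1
    congr 1
    funext i
    rcases i with i | i
    · show eval β ((lf (X : Fin m → MvPolynomial (Fin m) Kb)).coeff i) = (lf β).coeff i
      rw [← Polynomial.coeff_map, lf_map]
      simp
    · show eval β (C (x (.inr i))) = x (.inr i)
      rw [eval_C]
  have hG0 : G = 0 := by
    refine funext_set (fun i : Fin m => {y : Kb | ∃ k : ℕ, y = ((((m + 1) * k + (i.1 + 1) : ℕ) : ℤ) : Kb)})
      (fun i => ?_) fun y hy => ?_
    · refine Set.infinite_of_injective_forall_mem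
        (f := fun k : ℕ => ((((m + 1) * k + (i.1 + 1) : ℕ) : ℤ) : Kb)) ?_ (fun k => ⟨k, rfl⟩)
      intro k l hkl
      have h1 : (m + 1) * k + (i.1 + 1) = (m + 1) * l + (i.1 + 1) := by
        have h0 : ((((m + 1) * k + (i.1 + 1) : ℕ) : ℤ) : Kb) =
          ((((m + 1) * l + (i.1 + 1) : ℕ) : ℤ) : Kb) := hkl
        exact_mod_cast h0
      exact Nat.eq_of_mul_eq_mul_left (by omega) (by omega : (m + 1) * k = (m + 1) * l)
    · have hy' : ∀ i : Fin m, ∃ k : ℕ, y i = ((((m + 1) * k + (i.1 + 1) : ℕ) : ℤ) : Kb) :=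
        fun i => hy i (Set.mem_univ _)
      choose k hk using hy'
      rw [map_zero, hGe]
      have h1 := step1 (fun i => (((m + 1) * k i + (i.1 + 1) : ℕ) : ℤ)) (fun i j hij => by
        have h2 : (m + 1) * k i + (i.1 + 1) = (m + 1) * k j + (j.1 + 1) := by
          have h0 : (((m + 1) * k i + (i.1 + 1) : ℕ) : ℤ) =
            (((m + 1) * k j + (j.1 + 1) : ℕ) : ℤ) := hij
          exact_mod_cast h0
        have h3 := congrArg (· % (m + 1)) h2
        simp only [Nat.mul_add_mod] at h3
        rw [Nat.mod_eq_of_lt (by have := i.2; omega), Nat.mod_eq_of_lt (by have := j.2; omega)] at h3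
        exact Fin.ext (by omega)) (fun i => by positivity) fun i => x (.inr i)
      rw [← h1]
      congr 1
      congr 1
      funext i
      rcases i with i | i
      · show (lf y).coeff i = (lf fun j => ((((m + 1) * k j + (j.1 + 1) : ℕ) : ℤ) : Kb)).coeff i
        congr 2
        funext j
        exact hk j
      · rfl
  have h1 := hGe α
  rw [hG0, map_zero] at h1
  rw [h1]
  congr 1
  congr 1
  funext i
  rcases i with i | i
  · exact (hα i).symm
  · rfl

end

end Pool.Agent.W2helper85.SD
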